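import Pool.Agent.H59.L.S8.H176.DT.Stm5

/-!
# Etale local extensions of local rings in fields
-/

set_option autoImplicit false
set_option linter.unusedVariables false
set_option linter.unusedSectionVars false

universe u

namespace Pool.Agent.H208.DT5

open Pool.Agent.W418.LU2 IsLocalRing Polynomial Pool.Agent.H176.DT

/-- Abstract version: `P1` is generated up to units by the values of polynomials over `P`. -/
theorem abs_flat {P P1 : Type u} [CommRing P] [CommRing P1] [IsLocalRing P] [IsLocalRing P1]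
    (inc : P →+* P1) (hloc : ∀ z : P, IsUnit (inc z) → IsUnit z) (t : P1) (h : P[X])
    (hmon : h.Monic) (hroot : eval₂ inc t h = 0) (hder : IsUnit (eval₂ inc t (derivative h)))
    (hmin : ∀ q : P[X], q.degree < h.degree → eval₂ inc t q = 0 → q = 0)
    (hgen : ∀ z : P1, ∃ c s : P[X], IsUnit (eval₂ inc t s) ∧ z * eval₂ inc t s = eval₂ inc t c) :
    (∀ (I : Ideal P) (z : P), inc z ∈ I.map inc → z ∈ I) ∧
    (∀ z : P1, ¬ IsUnit z → z ∈ (Ideal.span {y : P | ¬ IsUnit y}).map inc) ∧
    ∀ p q : Ideal P1, p.IsPrime → q.IsPrime → p < q → p.comap inc < q.comap inc := by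
  have hmod : ∀ q : P[X], eval₂ inc t (q %ₘ h) = eval₂ inc t q := by
    intro q
    conv_rhs => rw [← modByMonic_add_div q h]
    rw [eval₂_add, eval₂_mul, hroot, zero_mul, add_zero]
  have hdeg : ∀ q : P[X], (q %ₘ h).degree < h.degree := fun q => degree_modByMonic_lt q hmon
  have hMI : ∀ (I : Ideal P) (q : P[X]), (∀ i, q.coeff i ∈ I) → eval₂ inc t q ∈ I.map inc := by
    intro I q hq
    rw [eval₂_eq_sum, Polynomial.sum]
    exact Ideal.sum_mem _ fun i _ => Ideal.mul_mem_right _ _ (Ideal.mem_map_of_mem _ (hq i))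
  have hunit : ∀ s : P[X], IsUnit (eval₂ inc t s) → ∃ i, IsUnit (s.coeff i) := by
    intro s hs
    by_contra hcon
    push Not at hcon
    have h1 : eval₂ inc t s ∈ (maximalIdeal P).map inc :=
      hMI _ s fun i => (mem_maximalIdeal _).2 (hcon i)
    have h2 : (maximalIdeal P).map inc ≤ maximalIdeal P1 := by
      rw [Ideal.map_le_iff_le_comap]
      intro a ha
      rw [Ideal.mem_comap, mem_maximalIdeal]
      intro hu
      exact (mem_maximalIdeal _).1 ha (hloc a hu)
    exact (mem_maximalIdeal _).1 (h2 h1) hs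
  have hmI : (maximalIdeal P).map inc ≤ maximalIdeal P1 := by
    rw [Ideal.map_le_iff_le_comap]
    intro a ha
    rw [Ideal.mem_comap, mem_maximalIdeal]
    intro hu
    exact (mem_maximalIdeal _).1 ha (hloc a hu)
  refine ⟨?_, ?_, ?_⟩
  · intro I z hz
    have key : ∀ w ∈ I.map inc, ∃ q s : P[X], IsUnit (eval₂ inc t s) ∧
        w * eval₂ inc t s = eval₂ inc t q ∧ q ∈ I.map (C : P →+* P[X]) := by
      intro w hw
      refine Submodule.span_induction (p := fun w _ => ∃ q s : P[X], IsUnit (eval₂ inc t s) ∧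
        w * eval₂ inc t s = eval₂ inc t q ∧ q ∈ I.map (C : P →+* P[X])) ?_ ?_ ?_ ?_ hw
      · rintro _ ⟨a, ha, rfl⟩
        refine ⟨C a, 1, by simp, by simp, Ideal.mem_map_of_mem _ ha⟩
      · exact ⟨0, 1, by simp, by simp, Ideal.zero_mem _⟩
      · rintro x y _ _ ⟨q1, s1, hs1, h1, hq1⟩ ⟨q2, s2, hs2, h2, hq2⟩
        refine ⟨q1 * s2 + q2 * s1, s1 * s2, ?_, ?_, ?_⟩
        · rw [eval₂_mul]; exact hs1.mul hs2
        · rw [eval₂_mul, eval₂_add, eval₂_mul, eval₂_mul, ← h1, ← h2]; ring
        · exact Ideal.add_mem _ (Ideal.mul_mem_right _ _ hq1) (Ideal.mul_mem_right _ _ hq2)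
      · rintro r x _ ⟨q1, s1, hs1, h1, hq1⟩
        obtain ⟨c, s, hs, hc⟩ := hgen r
        refine ⟨c * q1, s * s1, ?_, ?_, ?_⟩
        · rw [eval₂_mul]; exact hs.mul hs1
        · rw [eval₂_mul, eval₂_mul, ← h1, ← hc, smul_eq_mul]; ring
        · exact Ideal.mul_mem_left _ _ hq1
    obtain ⟨q, s, hs, hqs, hq⟩ := key _ hz
    have hq' : ∀ i, (q %ₘ h).coeff i ∈ I := by
      intro i
      have h1 : (q %ₘ h).map (Ideal.Quotient.mk I) = 0 := by
        rw [map_modByMonic _ hmon]
        have h2 : q.map (Ideal.Quotient.mk I) = 0 := by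
          ext j
          rw [coeff_map, coeff_zero, Ideal.Quotient.eq_zero_iff_mem]
          exact Ideal.mem_map_C_iff.1 hq j
        rw [h2, zero_modByMonic]
      have h2 := congrArg (fun f => f.coeff i) h1
      simp only [coeff_map, coeff_zero] at h2
      exact Ideal.Quotient.eq_zero_iff_mem.1 h2
    have h3 : C z * (s %ₘ h) - (q %ₘ h) = 0 := by
      apply hmin
      · refine lt_of_le_of_lt (degree_sub_le _ _) (max_lt ?_ (hdeg q))
        refine lt_of_le_of_lt ?_ (hdeg s)
        rw [← smul_eq_C_mul]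
        exact degree_smul_le _ _
      · rw [eval₂_sub, eval₂_mul, eval₂_C, hmod, hmod, hqs, sub_self]
    obtain ⟨i, hi⟩ := hunit (s %ₘ h) (by rw [hmod]; exact hs)
    have h4 := congrArg (fun f => f.coeff i) h3
    simp only [coeff_sub, coeff_C_mul, coeff_zero] at h4
    have h5 : z * (s %ₘ h).coeff i ∈ I := by
      rw [sub_eq_zero.1 h4]
      exact hq' i
    exact (Ideal.mul_unit_mem_iff_mem I hi).1 h5
  · intro z hz
    have hspan : (Ideal.span {y : P | ¬ IsUnit y}) = maximalIdeal P := by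
      apply le_antisymm
      · rw [Ideal.span_le]
        intro y hy
        exact (mem_maximalIdeal _).2 hy
      · intro y hy
        exact Ideal.subset_span ((mem_maximalIdeal _).1 hy)
    rw [hspan]
    let ev : P[X] →+* P1 := eval₂RingHom inc t
    let N : Ideal P[X] := (maximalIdeal P1).comap ev
    let π : P[X] →+* (ResidueField P)[X] := mapRingHom (residue P)
    have hπs : Function.Surjective π := map_surjective _ residue_surjective
    have hker : ∀ e : P[X], π e = 0 → ∀ i, e.coeff i ∈ maximalIdeal P := by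
      intro e he i
      have h2 := congrArg (fun f => f.coeff i) he
      simp only [π, coe_mapRingHom, coeff_map, coeff_zero] at h2
      exact (residue_eq_zero_iff _).1 h2
    have hkerN : ∀ e : P[X], π e = 0 → e ∈ N := by
      intro e he
      exact hmI (hMI _ e (hker e he))
    have hNm : ∀ c : P[X], π c ∈ N.map π → c ∈ N := by
      intro c hc
      have h1 : c ∈ (N.map π).comap π := hc
      rw [Ideal.comap_map_of_surjective π hπs] at h1
      obtain ⟨a, ha, b, hb, rfl⟩ := Submodule.mem_sup.1 h1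
      refine N.add_mem ha (hkerN b ?_)
      exact hb
    obtain ⟨gbar, hgbar⟩ := (IsPrincipalIdealRing.principal (N.map π)).principal
    obtain ⟨g, rfl⟩ := hπs gbar
    have hgN : g ∈ N := by
      apply hNm
      rw [hgbar]
      exact Submodule.mem_span_singleton_self _
    have hdiv : ∀ c ∈ N, ∃ r e : P[X], c = g * r + e ∧ ∀ i, e.coeff i ∈ maximalIdeal P := by
      intro c hc
      have h1 : π c ∈ N.map π := Ideal.mem_map_of_mem _ hc
      rw [hgbar] at h1
      obtain ⟨r0, hr0⟩ := Ideal.mem_span_singleton'.1 h1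
      obtain ⟨r, rfl⟩ := hπs r0
      refine ⟨r, c - g * r, by ring, hker _ ?_⟩
      rw [map_sub, map_mul, ← hr0]
      ring
    have hhN : h ∈ N := by
      change ev h ∈ maximalIdeal P1
      change eval₂ inc t h ∈ maximalIdeal P1
      rw [hroot]
      exact Ideal.zero_mem _
    obtain ⟨k, e, hk, he⟩ := hdiv h hhN
    have hgM : eval₂ inc t g ∈ maximalIdeal P1 := hgN
    have heM : eval₂ inc t e ∈ (maximalIdeal P).map inc := hMI _ e he
    have hdeM : eval₂ inc t (derivative e) ∈ maximalIdeal P1 := by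
      apply hmI
      apply hMI
      intro i
      rw [coeff_derivative]
      exact Ideal.mul_mem_right _ _ (he _)
    have hd : eval₂ inc t (derivative h) = eval₂ inc t (derivative g) * eval₂ inc t k +
        (eval₂ inc t g * eval₂ inc t (derivative k) + eval₂ inc t (derivative e)) := by
      rw [hk, derivative_add, derivative_mul, eval₂_add, eval₂_add, eval₂_mul, eval₂_mul]
      ring
    have hku : IsUnit (eval₂ inc t k) := by
      by_contra hnu
      have h1 : eval₂ inc t k ∈ maximalIdeal P1 := (mem_maximalIdeal _).2 hnu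
      have h2 : eval₂ inc t (derivative h) ∈ maximalIdeal P1 := by
        rw [hd]
        exact Ideal.add_mem _ (Ideal.mul_mem_left _ _ h1)
          (Ideal.add_mem _ (Ideal.mul_mem_right _ _ hgM) hdeM)
      exact (mem_maximalIdeal _).1 h2 hder
    have hg2 : eval₂ inc t g ∈ (maximalIdeal P).map inc := by
      have h1 : eval₂ inc t g * eval₂ inc t k + eval₂ inc t e = 0 := by
        rw [← eval₂_mul, ← eval₂_add, ← hk, hroot]
      have h2 : eval₂ inc t g * eval₂ inc t k ∈ (maximalIdeal P).map inc := by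
        rw [eq_neg_of_add_eq_zero_left h1]
        exact Submodule.neg_mem _ heM
      exact (Ideal.mul_unit_mem_iff_mem _ hku).1 h2
    obtain ⟨c, s, hs, hc⟩ := hgen z
    have hzM : z ∈ maximalIdeal P1 := (mem_maximalIdeal _).2 hz
    have hcN : c ∈ N := by
      change eval₂ inc t c ∈ maximalIdeal P1
      rw [← hc]
      exact Ideal.mul_mem_right _ _ hzM
    obtain ⟨r, e2, hc2, he2⟩ := hdiv c hcN
    have h3 : eval₂ inc t c ∈ (maximalIdeal P).map inc := by
      rw [hc2, eval₂_add, eval₂_mul]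
      exact Ideal.add_mem _ (Ideal.mul_mem_right _ _ hg2) (hMI _ e2 he2)
    rw [← hc] at h3
    exact (Ideal.mul_unit_mem_iff_mem _ hs).1 h3
  · intro p q hp hq hpq
    letI : Algebra P P1 := inc.toAlgebra
    obtain ⟨w, hwq, hwp⟩ := SetLike.exists_of_lt hpq
    obtain ⟨c, s, hs, hc⟩ := hgen w
    have h1 : eval₂ inc t c ∈ q := by
      rw [← hc]; exact Ideal.mul_mem_right _ _ hwq
    have h2 : eval₂ inc t c ∉ p := by
      rw [← hc]
      intro h3
      exact hwp ((Ideal.mul_unit_mem_iff_mem _ hs).1 h3)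
    have hti : IsIntegral P t := ⟨h, hmon, hroot⟩
    have hci : IsIntegral P (eval₂ inc t c) := by
      have h3 : eval₂ inc t c =
          ((aeval (⟨t, hti⟩ : integralClosure P P1) c : integralClosure P P1) : P1) := by
        rw [← Subalgebra.aeval_coe]
        rfl
      rw [h3]
      exact (aeval (⟨t, hti⟩ : integralClosure P P1) c).2
    exact Ideal.comap_lt_comap_of_integral_mem_sdiff hpq.le ⟨h1, h2⟩ hci

lemma unit_coeff {P P1 : Type u} [CommRing P] [CommRing P1] [IsLocalRing P] [IsLocalRing P1]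
    (inc : P →+* P1) (hloc : ∀ z : P, IsUnit (inc z) → IsUnit z) (t : P1) (s : P[X])
    (hs : IsUnit (eval₂ inc t s)) : ∃ i, IsUnit (s.coeff i) := by
  by_contra hcon
  push Not at hcon
  have h1 : eval₂ inc t s ∈ maximalIdeal P1 := by
    rw [eval₂_eq_sum, Polynomial.sum]
    refine Ideal.sum_mem _ fun i _ => Ideal.mul_mem_right _ _ ?_
    rw [mem_maximalIdeal]
    intro hu
    exact hcon i (hloc _ hu)
  exact (mem_maximalIdeal _).1 h1 hs

lemma loc_val {K : Type u} [Field K] (V : ValuationSubring K) : Loc V.toSubring := by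
  intro a ha
  by_cases h0 : a = 0
  · right
    subst h0
    simp
  by_cases h1 : a⁻¹ ∈ V
  · exact Or.inl ⟨h0, h1⟩
  right
  have ha1 : a ∈ V := ha
  have hlt : V.valuation a < 1 := by
    rcases lt_or_eq_of_le ((V.valuation_le_one_iff _).2 ha1) with h2 | h2
    · exact h2
    · exfalso
      apply h1
      rw [← V.valuation_le_one_iff, map_inv₀, h2, inv_one]
  have h3 : V.valuation (1 - a) = 1 := Valuation.map_one_sub_of_lt _ hlt
  refine ⟨?_, ?_⟩
  · intro h5
    rw [h5, map_zero] at h3
    exact zero_ne_one h3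
  · change (1 - a)⁻¹ ∈ V
    rw [← V.valuation_le_one_iff, map_inv₀, h3, inv_one]

/-- Etale local extensions. -/
theorem flat : S5_flat.{u} := by
  intro F F1 _ _ _ V ζ B h hBA hmon hcoef hroot hder hmin
  set A : Subring F := (V.comap (algebraMap F F1)).toSubring with hA
  set Cc : Subring F1 := Subring.closure ((B.map (algebraMap F F1) : Set F1) ∪ {ζ}) with hCc
  intro P P1 hP hP1 inc hinc
  subst hP hP1
  have hAV : ∀ x : F, x ∈ A ↔ algebraMap F F1 x ∈ V := fun x => Iff.rfl
  have hinj : Function.Injective (algebraMap F F1) := (algebraMap F F1).injective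
  have hζV : ζ ∈ V := by
    have h1 : IsIntegral V ζ := by
      have hl : ∃ hV : V[X], hV.map (algebraMap V F1) = h.map (algebraMap F F1) ∧
          hV.degree = (h.map (algebraMap F F1)).degree ∧ hV.Monic := by
        apply lifts_and_degree_eq_and_monic
        · rw [lifts_iff_coeff_lifts]
          intro i
          rw [coeff_map]
          exact ⟨⟨_, (hAV _).1 (hBA (hcoef i))⟩, rfl⟩
        · exact hmon.map _
      obtain ⟨hV, h2, _, h3⟩ := hl
      refine ⟨hV, h3, ?_⟩
      rw [← eval_map, h2, eval_map]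
      exact hroot
    obtain ⟨y, hy⟩ := IsIntegrallyClosed.isIntegral_iff.1 h1
    rw [← hy]
    exact y.2
  have hCV : Cc ≤ V.toSubring := by
    rw [hCc, Subring.closure_le]
    rintro x (⟨b, hb, rfl⟩ | rfl)
    · exact (hAV _).1 (hBA hb)
    · exact hζV
  haveI : IsLocalRing (lo A B) := isLocalRing_lo (loc_val _) hBA
  haveI : IsLocalRing (lo V.toSubring Cc) := isLocalRing_lo (loc_val V) hCV
  have hloc : ∀ z : lo A B, IsUnit (inc z) → IsUnit z := by
    intro z hz
    rw [isUnit_lo_iff hCV, hinc] at hz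
    rw [isUnit_lo_iff hBA]
    refine ⟨fun h0 => hz.1 (by rw [h0, map_zero]), ?_⟩
    rw [hAV, map_inv₀]
    exact hz.2
  have hζC : ζ ∈ Cc := Subring.subset_closure (Or.inr rfl)
  let t : lo V.toSubring Cc := ⟨ζ, le_lo _ _ hζC⟩
  have hev : ∀ q : (lo A B)[X], ((eval₂ inc t q : lo V.toSubring Cc) : F1) =
      aeval ζ (q.map (lo A B).subtype) := by
    intro q
    have h1 : ((eval₂ inc t q : lo V.toSubring Cc) : F1) =
        (lo V.toSubring Cc).subtype (eval₂ inc t q) := rfl
    rw [h1, hom_eval₂, aeval_def, eval₂_map]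
    have h2 : (lo V.toSubring Cc).subtype.comp inc =
        (algebraMap F F1).comp (lo A B).subtype := by
      ext z
      exact hinc z
    rw [h2]
    rfl
  have hcs : (h.coeffs : Set F) ⊆ lo A B := by
    intro x hx
    obtain ⟨i, _, rfl⟩ := mem_coeffs_iff.1 hx
    exact le_lo _ _ (hcoef i)
  let g : (lo A B)[X] := h.toSubring (lo A B) hcs
  have hgmap : g.map (lo A B).subtype = h := map_toSubring _ _ _
  have hgmon : g.Monic := (monic_toSubring _ _ _).2 hmon
  have hgdeg : g.degree = h.degree := degree_toSubring _ _ _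
  have hsubinj : Function.Injective (lo A B).subtype := Subtype.coe_injective
  have hroot' : eval₂ inc t g = 0 := by
    apply Subtype.ext
    rw [hev, hgmap, hroot]
    rfl
  have hder' : IsUnit (eval₂ inc t (derivative g)) := by
    rw [isUnit_lo_iff hCV, hev, ← derivative_map, hgmap]
    refine ⟨?_, ?_⟩
    · intro h0
      rw [h0, map_zero] at hder
      exact zero_ne_one hder
    · change (aeval ζ (derivative h))⁻¹ ∈ V
      rw [← V.valuation_le_one_iff, map_inv₀, hder, inv_one]
  have hmin' : ∀ q : (lo A B)[X], q.degree < g.degree → eval₂ inc t q = 0 → q = 0 := by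
    intro q hq hq0
    have h1 : q.map (lo A B).subtype = 0 := by
      apply hmin
      · rw [degree_map_eq_of_injective hsubinj, ← hgdeg]
        exact hq
      · rw [← hev, hq0]
        rfl
    exact (Polynomial.map_eq_zero_iff hsubinj).1 h1
  have hCrep : ∀ x ∈ Cc, ∃ q : (lo A B)[X], ((eval₂ inc t q : lo V.toSubring Cc) : F1) = x := by
    intro x hx
    refine Subring.closure_induction (p := fun x _ => ∃ q : (lo A B)[X],
      ((eval₂ inc t q : lo V.toSubring Cc) : F1) = x) ?_ ?_ ?_ ?_ ?_ ?_ hx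
    · rintro x (⟨b, hb, rfl⟩ | hx)
      · exact ⟨C ⟨b, le_lo _ _ hb⟩, by rw [eval₂_C, hinc]⟩
      · rw [Set.mem_singleton_iff] at hx
        exact ⟨X, by rw [eval₂_X, hx]⟩
    · exact ⟨0, by rw [eval₂_zero]; rfl⟩
    · exact ⟨1, by rw [eval₂_one]; rfl⟩
    · rintro x y _ _ ⟨p, rfl⟩ ⟨q, rfl⟩
      exact ⟨p + q, by rw [eval₂_add]; rfl⟩
    · rintro x _ ⟨p, rfl⟩
      exact ⟨-p, by rw [eval₂_neg]; rfl⟩
    · rintro x y _ _ ⟨p, rfl⟩ ⟨q, rfl⟩
      exact ⟨p * q, by rw [eval₂_mul]; rfl⟩
  have hgen : ∀ z : lo V.toSubring Cc, ∃ c s : (lo A B)[X], IsUnit (eval₂ inc t s) ∧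
      z * eval₂ inc t s = eval₂ inc t c := by
    rintro ⟨z, a, ha, b, hb, hb0, hbA, rfl⟩
    obtain ⟨c, hc⟩ := hCrep a ha
    obtain ⟨s, hs⟩ := hCrep b hb
    refine ⟨c, s, ?_, ?_⟩
    · rw [isUnit_lo_iff hCV, hs]
      exact ⟨hb0, hbA⟩
    · apply Subtype.ext
      change a * b⁻¹ * ((eval₂ inc t s : lo V.toSubring Cc) : F1) = _
      rw [hs, hc, mul_assoc, inv_mul_cancel₀ hb0, mul_one]
  obtain ⟨r1, r2, r3⟩ := abs_flat inc hloc t g hgmon hroot' hder' hmin' hgen
  refine ⟨?_, r1, r2, r3⟩
  intro z hz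
  have hmod : ∀ q : (lo A B)[X], eval₂ inc t (q %ₘ g) = eval₂ inc t q := by
    intro q
    conv_rhs => rw [← modByMonic_add_div q g]
    rw [eval₂_add, eval₂_mul, hroot', zero_mul, add_zero]
  obtain ⟨c, s, hs, hc⟩ := hgen ⟨algebraMap F F1 z, hz⟩
  obtain ⟨i, hi⟩ := unit_coeff inc hloc t (s %ₘ g) (by rw [hmod]; exact hs)
  have h1 : C z * (s %ₘ g).map (lo A B).subtype - (c %ₘ g).map (lo A B).subtype = 0 := by
    apply hmin
    · refine lt_of_le_of_lt (degree_sub_le _ _) (max_lt ?_ ?_)
      · refine lt_of_le_of_lt (b := ((s %ₘ g).map (lo A B).subtype).degree) ?_ ?_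
        · rw [← smul_eq_C_mul]
          exact degree_smul_le _ _
        · rw [degree_map_eq_of_injective hsubinj, ← hgdeg]
          exact degree_modByMonic_lt _ hgmon
      · rw [degree_map_eq_of_injective hsubinj, ← hgdeg]
        exact degree_modByMonic_lt _ hgmon
    · rw [map_sub, map_mul, aeval_C, ← hev, ← hev, hmod, hmod, ← hc]
      exact sub_self _
  have h2 := congrArg (fun f => f.coeff i) h1
  simp only [coeff_sub, coeff_C_mul, coeff_zero, coeff_map] at h2
  have h3 := (isUnit_lo_iff hBA _).1 hi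
  have h4 : z = ((c %ₘ g).coeff i : F) * ((s %ₘ g).coeff i : F)⁻¹ := by
    have h5 : z * ((s %ₘ g).coeff i : F) = ((c %ₘ g).coeff i : F) := sub_eq_zero.1 h2
    rw [← h5, mul_assoc, mul_inv_cancel₀ h3.1, mul_one]
  rw [h4]
  exact (lo A B).mul_mem ((c %ₘ g).coeff i).2 (inv_mem_lo hBA ((s %ₘ g).coeff i).2 h3.1 h3.2)

end Pool.Agent.H208.DT5
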